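import Mathlib
import Pool.Agent.Lib.MP_ca0bb9_al.Main

set_option autoImplicit false

namespace Pool.Agent.Results.MP_ca0bb9_al.CappittFiniteCyclic

/-- If `G` is a pro-`p` group and the closure of the subgroup generated by all closed non-normal
subgroups is not `G`, then the closed derived subgroup is a finite cyclic group of order `p ^ n`. -/
theorem result (p : ℕ) (hp : p.Prime) (G : Type*) [Group G] [TopologicalSpace G]
    [IsTopologicalGroup G] [CompactSpace G] [T2Space G] [TotallyDisconnectedSpace G]
    (hG : ∀ (N : Subgroup G) [N.Normal], IsOpen (N : Set G) → IsPGroup p (G ⧸ N))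
    (hS : (sSup {L : Subgroup G | IsClosed (L : Set G) ∧ ¬ L.Normal}).topologicalClosure ≠ ⊤) :
    ∃ n : ℕ, Nonempty ((commutator G).topologicalClosure ≃ₜ* Multiplicative (ZMod (p ^ n))) := by
  refine Pool.Agent.Lib.MP_ca0bb9_al.main ?_ hS hp fun N => hG N.toSubgroup N.isOpen
  intro L hL hle
  by_contra hn
  exact hle ((le_sSup (show L ∈ {L : Subgroup G | IsClosed (L : Set G) ∧ ¬ L.Normal} from
    ⟨hL, hn⟩)).trans (Subgroup.le_topologicalClosure _))

end Pool.Agent.Results.MP_ca0bb9_al.CappittFiniteCyclic
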